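import Mathlib
import Pool.Agent.H253Z.BiDefs
import Pool.Agent.H253Z.BiG

set_option autoImplicit false

open Pool.Agent.H253Z.Bi

namespace Pool.Agent.Results.MP_402458_gt.AAPointQ1Q2

/-- There is a complete smooth Riemannian metric on the plane (it dominates a positive multiple of
the standard norm) and a point `p` such that a vector of the tangent separating set of `p` is a
limit of tangent cut vectors outside it (Q1), and a point of the separating set of `p` is a limit
of cut points outside it (Q2). -/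
theorem result : ∃ (g : ℝ × ℝ → ℝ × ℝ →L[ℝ] ℝ × ℝ →L[ℝ] ℝ) (p : ℝ × ℝ), IsMetric g ∧
    (∃ c : ℝ, 0 < c ∧ ∀ z v, c * ‖v‖ ^ 2 ≤ g z v v) ∧
    (∃ u ∈ TSep g p, u ∈ closure (TCut g p \ TSep g p)) ∧
    ∃ x ∈ Sep g p ∩ Cut g p, x ∈ closure (Cut g p \ Sep g p) :=
  main

end Pool.Agent.Results.MP_402458_gt.AAPointQ1Q2
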