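import Pool.Agent.H760Z.Cut.Main

/-!
# MP_402458_gt, Q1: the tangent separating set need not be open in the tangent cut locus

`M` is the Euclidean plane and `N` a smooth closed curve: the unit circle with infinitely many
small outward bumps (arcs of ellipses around their major vertices) accumulating at `(1, 0)`.
-/

set_option autoImplicit false

namespace Pool.Agent.Results.MP_402458_gt.AQ1TangentSepNotOpen

open Pool.Agent.H760Z.Cut

/-- There is a compact connected smooth curve `N = g⁻¹(0)` in the Euclidean plane whose tangent
separating set is not open in its tangent cut locus. -/
theorem result : ∃ g : Plane → ℝ, IsRegularDefiningFunction g ∧ IsCompact (zeroSet g) ∧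
    IsConnected (zeroSet g) ∧
    ¬ IsOpen {z : tangentCutLocus g | (z : Plane × Plane) ∈ tangentSepSet g} := answer_Q1

end Pool.Agent.Results.MP_402458_gt.AQ1TangentSepNotOpen
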